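import Pool.Agent.Y298.LC.Stm

/-!
# Project LC (helper298): joint continuity of the Green function (S_CG)
-/

set_option autoImplicit false

open Set Filter Metric MeasureTheory Topology Complex Bornology

namespace Pool.Agent.Y297.LC

open Pool.Agent.H712R2 (P fc)
open Pool.Agent.H713R2 (IsExteriorMap)
open Pool.Agent.H713R2.AR (green gap green_near gap_tendsto norm_iter_le)
open N62a1eb23 (multibrotSet)

theorem continuous_iter2 (d n : ℕ) : Continuous (fun p : ℂ × ℂ => (fc d p.1)^[n] p.2) := by
  induction n with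
  | zero => exact continuous_snd
  | succ n ih =>
    have h : (fun p : ℂ × ℂ => (fc d p.1)^[n + 1] p.2) =
        fun p : ℂ × ℂ => ((fc d p.1)^[n] p.2) ^ d + p.1 := by
      funext p
      rw [Function.iterate_succ_apply']
      rfl
    rw [h]
    exact (ih.pow d).add continuous_fst

theorem continuous_gap2 (d n : ℕ) : Continuous (fun p : ℂ × ℂ => gap d p.1 p.2 n) := by
  unfold gap
  exact (Real.continuous_posLog.comp (continuous_iter2 d n).norm).div_const _

theorem continuous_green2 {d : ℕ} (hd : 2 ≤ d) :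
    Continuous (fun p : ℂ × ℂ => green d p.1 p.2) := by
  have hdR : (2 : ℝ) ≤ d := by exact_mod_cast hd
  rw [continuous_iff_continuousAt]
  intro p
  set A : ℝ := ‖p.1‖ + 1 with hA
  have hA1 : 1 ≤ A := by
    have := norm_nonneg p.1
    linarith
  have hopen : IsOpen {q : ℂ × ℂ | ‖q.1‖ < A} := isOpen_lt continuous_fst.norm continuous_const
  have hu : TendstoUniformlyOn (fun (n : ℕ) (q : ℂ × ℂ) => gap d q.1 q.2 n)
      (fun q : ℂ × ℂ => green d q.1 q.2) atTop {q : ℂ × ℂ | ‖q.1‖ < A} := by
    rw [Metric.tendstoUniformlyOn_iff]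
    intro ε hε
    have h1 : Tendsto (fun n : ℕ => Real.log (2 * A) / (d : ℝ) ^ n) atTop (𝓝 0) := by
      have h2 : Tendsto (fun n : ℕ => (d : ℝ) ^ n) atTop atTop :=
        tendsto_pow_atTop_atTop_of_one_lt (by linarith)
      exact h2.const_div_atTop _
    filter_upwards [h1.eventually (gt_mem_nhds hε)] with n hn q hq
    rw [Real.dist_eq]
    exact (green_near hd hA1 (le_of_lt hq) q.2 n).trans_lt hn
  have hcont : ContinuousOn (fun q : ℂ × ℂ => green d q.1 q.2) {q : ℂ × ℂ | ‖q.1‖ < A} :=
    hu.continuousOn (Frequently.of_forall fun n => (continuous_gap2 d n).continuousOn)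
  exact hcont.continuousAt (hopen.mem_nhds (by show ‖p.1‖ < A; linarith))

theorem green_fc {d : ℕ} (hd : 2 ≤ d) (c z : ℂ) : green d c (fc d c z) = d * green d c z := by
  have hd0 : (d : ℝ) ≠ 0 := by
    have : d ≠ 0 := by omega
    exact_mod_cast this
  have h1 := gap_tendsto hd c (fc d c z)
  have h2 : Tendsto (fun n => (d : ℝ) * gap d c z (n + 1)) atTop (𝓝 (d * green d c z)) :=
    ((tendsto_add_atTop_iff_nat 1).mpr (gap_tendsto hd c z)).const_mul _
  have h3 : gap d c (fc d c z) = fun n => (d : ℝ) * gap d c z (n + 1) := by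
    funext n
    unfold gap
    rw [Function.iterate_succ_apply, pow_succ]
    field_simp
  rw [h3] at h1
  exact tendsto_nhds_unique h1 h2

/-- CG -/
theorem cg : Pool.Agent.Y298.LC.S_CG := by
  intro d hd
  have hd1 : (1 : ℝ) < d := by exact_mod_cast (by omega : 1 < d)
  refine ⟨continuous_green2 hd, green_fc hd, fun c => ⟨fun hc => ?_, fun hc => ?_⟩,
    fun c z hz A hA hcA n => ?_⟩
  · have h := (Pool.Agent.H712R2.mem_multibrot_iff hd c).mp hc
    refine tendsto_nhds_unique (gap_tendsto hd c 0) ?_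
    have hlim : Tendsto (fun n : ℕ => Real.log 2 / (d : ℝ) ^ n) atTop (𝓝 0) := by
      have h2 : Tendsto (fun n : ℕ => (d : ℝ) ^ n) atTop atTop :=
        tendsto_pow_atTop_atTop_of_one_lt hd1
      exact h2.const_div_atTop _
    refine squeeze_zero (fun n => ?_) (fun n => ?_) hlim
    · exact div_nonneg Real.posLog_nonneg (by positivity)
    · apply div_le_div_of_nonneg_right _ (by positivity)
      have h4 := Real.posLog_le_posLog (norm_nonneg _) (h n)
      rwa [Real.posLog_eq_log (x := 2) (by norm_num)] at h4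
  · have hdef : c ∈ multibrotSet d ↔ ¬ Tendsto (fun k => P d k c) atTop (cobounded ℂ) := Iff.rfl
    rw [hdef]
    intro ht
    rw [← tendsto_norm_atTop_iff_cobounded] at ht
    obtain ⟨k, hk⟩ := (ht.eventually (eventually_gt_atTop (2 * max 1 ‖c‖))).exists
    have h1 := norm_iter_le hd (le_max_left 1 ‖c‖) (le_max_right 1 ‖c‖) 0 k
    rw [hc, mul_zero, Real.exp_zero, mul_one] at h1
    exact absurd h1 (not_le.mpr hk)
  · have h1 := norm_iter_le hd (by linarith : (1 : ℝ) ≤ A) hcA z n
    rwa [hz, mul_zero, Real.exp_zero, mul_one] at h1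

end Pool.Agent.Y297.LC
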